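import Mathlib
import Pool.Agent.Lib.MP_8a180b_co.Transfer

set_option autoImplicit false

namespace Pool.Agent.Results.MP_8a180b_co.Determined

open Finset Pool.Agent.Lib.MP_8a180b_co

/-- `u` is a dual orthonormal representation of `G` in dimension `d`: unit vectors, with adjacent
vertices mapped to orthogonal vectors. -/
def IsDualOrthRep {V : Type} (G : SimpleGraph V) {d : ℕ} (u : V → EuclideanSpace ℝ (Fin d)) :
    Prop :=
  (∀ i, ‖u i‖ = 1) ∧ ∀ i j, G.Adj i j → inner ℝ (u i) (u j) = 0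

/-- The values `max_i 1 / ⟨c, u_i⟩ ^ 2` of all dual orthonormal representations `u` and unit
vectors `c` (those with all `⟨c, u_i⟩` nonzero, as otherwise the maximum is infinite). -/
def thetaValues {V : Type} (G : SimpleGraph V) : Set ℝ :=
  {t : ℝ | ∃ (d : ℕ) (u : V → EuclideanSpace ℝ (Fin d)) (c : EuclideanSpace ℝ (Fin d)),
    IsDualOrthRep G u ∧ ‖c‖ = 1 ∧ (∀ i, inner ℝ c (u i) ≠ 0) ∧
      t = ⨆ i, 1 / (inner ℝ c (u i)) ^ 2}

/-- The complementary theta number: the least value (see `thetaBar_isLeast`). -/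
noncomputable def thetaBar {V : Type} (G : SimpleGraph V) : ℝ := sInf (thetaValues G)

/-- Adjacency in the path `P_r` with vertices `0, …, r`, edges `{i, i+1}` and a loop at `0`. -/
def PathAdj {r : ℕ} (i j : Fin (r + 1)) : Prop :=
  (i.val = 0 ∧ j.val = 0) ∨ i.val + 1 = j.val ∨ j.val + 1 = i.val

/-- The identification map: all vertices `(v, r)` go to the single vertex `none`. -/
def collapse {V : Type} {r : ℕ} (x : V × Fin (r + 1)) : Option (V × Fin r) :=
  if h : x.2.val < r then some (x.1, ⟨x.2.val, h⟩) else none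

/-- The generalized Mycielskian `M_r(G)`: the image of the categorical product `G × P_r` under the
identification of all vertices `(v, r)`. -/
def genMyc {V : Type} (G : SimpleGraph V) (r : ℕ) : SimpleGraph (Option (V × Fin r)) where
  Adj a b := a ≠ b ∧ ∃ x y : V × Fin (r + 1),
    collapse x = a ∧ collapse y = b ∧ G.Adj x.1 y.1 ∧ PathAdj x.2 y.2
  symm := ⟨fun a b h => by
    obtain ⟨hab, x, y, hx, hy, hadj, hp⟩ := h
    refine ⟨hab.symm, y, x, hy, hx, hadj.symm, ?_⟩
    unfold PathAdj at hp ⊢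
    omega⟩
  loopless := ⟨fun a h => h.1 rfl⟩

/-! ### Adjacency in `genMyc` -/

theorem collapse_some {V : Type} {r : ℕ} (x : V × Fin (r + 1)) (v : V) (i : Fin r) :
    collapse x = some (v, i) ↔ x.1 = v ∧ x.2.val = i.val := by
  unfold collapse
  constructor
  · intro h
    split_ifs at h with h1
    · simp only [Option.some.injEq, Prod.mk.injEq] at h
      exact ⟨h.1, by rw [← h.2]⟩
  · rintro ⟨h1, h2⟩
    have h3 : x.2.val < r := by rw [h2]; exact i.2
    rw [dif_pos h3]
    simp only [Option.some.injEq, Prod.mk.injEq]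
    exact ⟨h1, Fin.ext h2⟩

theorem collapse_none {V : Type} {r : ℕ} (x : V × Fin (r + 1)) :
    collapse x = none ↔ x.2.val = r := by
  unfold collapse
  have := x.2.2
  constructor
  · intro h
    split_ifs at h with h1
    omega
  · intro h
    rw [dif_neg (by omega)]

theorem adj_of {V : Type} (G : SimpleGraph V) (r : ℕ) (v w : V) (i j : Fin r)
    (h : G.Adj v w) (hl : LevelAdj i j) : (genMyc G r).Adj (some (v, i)) (some (w, j)) := by
  refine ⟨?_, (v, i.castSucc), (w, j.castSucc), ?_, ?_, h, hl⟩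
  · intro heq
    simp only [Option.some.injEq, Prod.mk.injEq] at heq
    exact h.ne heq.1
  · rw [collapse_some]; exact ⟨rfl, rfl⟩
  · rw [collapse_some]; exact ⟨rfl, rfl⟩

theorem adj_apex_of {V : Type} (G : SimpleGraph V) (r : ℕ) (v w : V) (i : Fin r)
    (hi : i.val + 1 = r) (h : G.Adj v w) : (genMyc G r).Adj (some (v, i)) none := by
  refine ⟨by simp, (v, i.castSucc), (w, Fin.last r), ?_, ?_, h, Or.inr (Or.inl hi)⟩
  · rw [collapse_some]; exact ⟨rfl, rfl⟩
  · rw [collapse_none]; rfl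

theorem of_adj {V : Type} (G : SimpleGraph V) (r : ℕ) (v w : V) (i j : Fin r)
    (h : (genMyc G r).Adj (some (v, i)) (some (w, j))) : G.Adj v w ∧ LevelAdj i j := by
  obtain ⟨_, x, y, hx, hy, hadj, hp⟩ := h
  rw [collapse_some] at hx hy
  refine ⟨hx.1 ▸ hy.1 ▸ hadj, ?_⟩
  unfold PathAdj at hp
  unfold LevelAdj
  omega

theorem of_adj_apex {V : Type} (G : SimpleGraph V) (r : ℕ) (v : V) (i : Fin r)
    (h : (genMyc G r).Adj (some (v, i)) none) : i.val + 1 = r := by
  obtain ⟨_, x, y, hx, hy, _, hp⟩ := h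
  rw [collapse_some] at hx
  rw [collapse_none] at hy
  have := i.2
  unfold PathAdj at hp
  omega

theorem edge_of_adj {V : Type} (G : SimpleGraph V) (r : ℕ) (a b : Option (V × Fin r))
    (h : (genMyc G r).Adj a b) : ∃ v w, G.Adj v w := by
  obtain ⟨_, x, y, _, _, hadj, _⟩ := h
  exact ⟨x.1, y.1, hadj⟩

/-! ### Representations and Gram matrices -/

theorem isGram_inner {ι : Type} {d : ℕ} (w : ι → EuclideanSpace ℝ (Fin d)) :
    IsGram (fun i j => inner ℝ (w i) (w j)) := by
  refine ⟨Fin d, inferInstance, fun i k => w i k, fun i j => ?_⟩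
  simp [PiLp.inner_apply, mul_comm]

theorem primal_of_rep {V : Type} (G : SimpleGraph V) (t : ℝ) {d : ℕ}
    (u : V → EuclideanSpace ℝ (Fin d)) (c : EuclideanSpace ℝ (Fin d))
    (hu : IsDualOrthRep G u) (hc : ‖c‖ = 1) (hne : ∀ i, inner ℝ c (u i) ≠ 0)
    (ht : ∀ i, 1 / (inner ℝ c (u i)) ^ 2 ≤ t) : Primal G (t - 1) := by
  have hcalc : ∀ i j, inner ℝ (c - (inner ℝ c (u i))⁻¹ • u i) (c - (inner ℝ c (u j))⁻¹ • u j) =
      -1 + (inner ℝ c (u i))⁻¹ * (inner ℝ c (u j))⁻¹ * inner ℝ (u i) (u j) := by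
    intro i j
    rw [inner_sub_left, inner_sub_right, inner_sub_right, inner_smul_left, inner_smul_right,
      inner_smul_left, inner_smul_right]
    rw [real_inner_self_eq_norm_sq, hc]
    rw [real_inner_comm c (u i)]
    simp only [conj_trivial]
    rw [inv_mul_cancel₀ (hne j), inv_mul_cancel₀ (hne i)]
    ring
  refine ⟨_, isGram_inner (fun i => c - (inner ℝ c (u i))⁻¹ • u i), ?_, ?_⟩
  · intro i j hij
    rw [hcalc, hu.2 i j hij]
    ring
  · intro i
    rw [hcalc, real_inner_self_eq_norm_sq, hu.1 i]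
    have h1 := ht i
    have h2 : 1 / (inner ℝ c (u i)) ^ 2 = (inner ℝ c (u i))⁻¹ * (inner ℝ c (u i))⁻¹ := by
      rw [sq, one_div, mul_inv]
    rw [h2] at h1
    linarith

theorem rep_of_primal {V : Type} [Nonempty V] (G : SimpleGraph V) (τ : ℝ) (h : Primal G τ) :
    ∃ t ∈ thetaValues G, t ≤ 1 + τ := by
  obtain ⟨W, ⟨κ, hκ, ξ, hξ⟩, hE, hD⟩ := h
  classical
  set d := Fintype.card (Option κ) with hd
  set e : Option κ ≃ Fin d := Fintype.equivFin (Option κ) with he
  set vec : (Option κ → ℝ) → EuclideanSpace ℝ (Fin d) :=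
    fun f => WithLp.toLp 2 (fun k => f (e.symm k)) with hvec
  have hinner : ∀ f g : Option κ → ℝ, inner ℝ (vec f) (vec g) = ∑ o, f o * g o := by
    intro f g
    rw [← Equiv.sum_comp e.symm (fun o => f o * g o)]
    simp [hvec, PiLp.inner_apply, mul_comm]
  set x : V → Option κ → ℝ := fun i o => o.elim 1 (fun l => - ξ i l) with hx
  set c0 : Option κ → ℝ := fun o => o.elim 1 (fun _ => 0) with hc0
  have hxx : ∀ i j, ∑ o, x i o * x j o = 1 + W i j := by
    intro i j
    rw [Fintype.sum_option, hξ]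
    simp [hx]
  have hcx : ∀ i, ∑ o, c0 o * x i o = 1 := by
    intro i
    rw [Fintype.sum_option]
    simp [hx, hc0]
  have hcc : ∑ o, c0 o * c0 o = 1 := by
    rw [Fintype.sum_option]
    simp [hc0]
  have hWd : ∀ i, 0 ≤ W i i := by
    intro i
    rw [hξ]
    exact sum_nonneg (fun k _ => mul_self_nonneg _)
  have hpos : ∀ i, 0 < Real.sqrt (1 + W i i) := fun i =>
    Real.sqrt_pos.2 (by linarith [hWd i])
  set u : V → EuclideanSpace ℝ (Fin d) := fun i => (Real.sqrt (1 + W i i))⁻¹ • vec (x i) with hu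
  have huu : ∀ i j, inner ℝ (u i) (u j) =
      (Real.sqrt (1 + W i i))⁻¹ * (Real.sqrt (1 + W j j))⁻¹ * (1 + W i j) := by
    intro i j
    simp only [hu]
    rw [inner_smul_left, inner_smul_right, hinner, hxx]
    simp only [conj_trivial]
    ring
  have hcu : ∀ i, inner ℝ (vec c0) (u i) = (Real.sqrt (1 + W i i))⁻¹ := by
    intro i
    simp only [hu]
    rw [inner_smul_right, hinner, hcx, mul_one]
  have hsq : ∀ i, Real.sqrt (1 + W i i) * Real.sqrt (1 + W i i) = 1 + W i i := fun i =>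
    Real.mul_self_sqrt (by linarith [hWd i])
  have hval : ∀ i, 1 / (inner ℝ (vec c0) (u i)) ^ 2 = 1 + W i i := by
    intro i
    rw [hcu, inv_pow, one_div, inv_inv, sq]
    exact hsq i
  refine ⟨⨆ i, 1 / (inner ℝ (vec c0) (u i)) ^ 2, ⟨d, u, vec c0, ⟨?_, ?_⟩, ?_, ?_, rfl⟩, ?_⟩
  · intro i
    have h1 : ‖u i‖ ^ 2 = 1 := by
      rw [← real_inner_self_eq_norm_sq, huu]
      have h3 := (hpos i).ne'
      calc (Real.sqrt (1 + W i i))⁻¹ * (Real.sqrt (1 + W i i))⁻¹ * (1 + W i i)
          = (Real.sqrt (1 + W i i))⁻¹ * (Real.sqrt (1 + W i i))⁻¹ *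
            (Real.sqrt (1 + W i i) * Real.sqrt (1 + W i i)) := by rw [hsq i]
        _ = ((Real.sqrt (1 + W i i))⁻¹ * Real.sqrt (1 + W i i)) *
            ((Real.sqrt (1 + W i i))⁻¹ * Real.sqrt (1 + W i i)) := by ring
        _ = 1 := by rw [inv_mul_cancel₀ h3, one_mul]
    have h2 : ‖u i‖ ^ 2 = 1 ^ 2 := by rw [h1]; ring
    exact (sq_eq_sq₀ (norm_nonneg _) (by norm_num)).1 h2
  · intro i j hij
    rw [huu, hE i j hij]
    ring
  · have h1 : ‖vec c0‖ ^ 2 = 1 ^ 2 := by
      rw [← real_inner_self_eq_norm_sq, hinner, hcc]; ring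
    exact (sq_eq_sq₀ (norm_nonneg _) (by norm_num)).1 h1
  · intro i
    rw [hcu]
    exact inv_ne_zero (hpos i).ne'
  · apply ciSup_le
    intro i
    rw [hval]
    linarith [hD i]

theorem primal_of_mem {V : Type} [Fintype V] (G : SimpleGraph V) (t : ℝ)
    (ht : t ∈ thetaValues G) : Primal G (t - 1) := by
  obtain ⟨d, u, c, hu, hc, hne, rfl⟩ := ht
  exact primal_of_rep G _ u c hu hc hne (fun i =>
    le_ciSup (f := fun i => 1 / (inner ℝ c (u i)) ^ 2) (Set.finite_range _).bddAbove i)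

theorem theta_eq {V : Type} [Fintype V] [Nonempty V] (G : SimpleGraph V) (Z : V → V → ℝ)
    (hZ : DualFeas G Z)
    (hmax : ∀ Z' : V → V → ℝ, DualFeas G Z' → ∑ i, ∑ j, Z' i j ≤ ∑ i, ∑ j, Z i j) :
    IsLeast (thetaValues G) (∑ i, ∑ j, Z i j) := by
  have hlow : ∀ t ∈ thetaValues G, ∑ i, ∑ j, Z i j ≤ t := by
    intro t ht
    have := weak_duality G (t - 1) (primal_of_mem G t ht) Z hZ
    linarith
  have hP : Primal G (∑ i, ∑ j, Z i j - 1) :=
    strong_duality G _ (fun Z' hZ' => by linarith [hmax Z' hZ'])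
  obtain ⟨t, ht, htle⟩ := rep_of_primal G _ hP
  have h1 := hlow t ht
  have h2 : t = ∑ i, ∑ j, Z i j := by linarith
  exact ⟨h2 ▸ ht, hlow⟩

/-- The minimum in the definition of `thetaBar` is attained. -/
theorem thetaBar_isLeast {V : Type} [Fintype V] [Nonempty V] (G : SimpleGraph V) :
    IsLeast (thetaValues G) (thetaBar G) := by
  obtain ⟨Z, hZ, hmax⟩ := exists_dual_max G
  have h := theta_eq G Z hZ hmax
  have h2 : thetaBar G = ∑ i, ∑ j, Z i j := h.csInf_eq
  rw [h2]
  exact h

theorem primal_theta {V : Type} [Fintype V] [Nonempty V] (G : SimpleGraph V) :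
    Primal G (thetaBar G - 1) := primal_of_mem G _ (thetaBar_isLeast G).1

theorem theta_le_of_primal {V : Type} [Fintype V] [Nonempty V] (G : SimpleGraph V) (τ : ℝ)
    (h : Primal G τ) : thetaBar G ≤ 1 + τ := by
  obtain ⟨t, ht, htle⟩ := rep_of_primal G τ h
  exact ((thetaBar_isLeast G).2 ht).trans htle

theorem one_le_theta {V : Type} [Fintype V] [Nonempty V] (G : SimpleGraph V) :
    1 ≤ thetaBar G := by
  classical
  obtain ⟨a⟩ := (inferInstance : Nonempty V)
  have h1 := weak_duality G _ (primal_theta G) _ (dualFeas_single G a)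
  have h2 : ∑ i, ∑ j, (if i = a ∧ j = a then (1 : ℝ) else 0) = 1 := by
    rw [sum_eq_single a, sum_eq_single a]
    · simp
    · intro b _ hb; simp [hb]
    · intro hb; exact absurd (mem_univ _) hb
    · intro b _ hb; simp [hb]
    · intro hb; exact absurd (mem_univ _) hb
  rw [h2] at h1
  linarith

theorem theta_of_no_edge {V : Type} [Fintype V] [Nonempty V] (G : SimpleGraph V)
    (h : ∀ v w, ¬ G.Adj v w) : thetaBar G = 1 := by
  have hP : Primal G 0 :=
    ⟨fun _ _ => 0, ⟨Unit, inferInstance, fun _ _ => 0, fun i j => by simp⟩,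
      fun i j hij => absurd hij (h i j), fun i => le_refl _⟩
  have h1 := theta_le_of_primal G 0 hP
  have h2 := one_le_theta G
  linarith

theorem one_lt_theta_of_edge {V : Type} [Fintype V] [Nonempty V] (G : SimpleGraph V) (v w : V)
    (h : G.Adj v w) : 1 < thetaBar G := by
  obtain ⟨W, hW, hE, hD⟩ := primal_theta G
  have h1 := hW.sq_le v w
  rw [hE v w h] at h1
  have h2 := hD v
  have h3 := hD w
  have h4 := hW.diag_nonneg v
  have h5 := hW.diag_nonneg w
  by_contra hcon
  have h6 : W v v = 0 := by linarith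
  rw [h6] at h1
  norm_num at h1

theorem theta_mono_transfer {V V' : Type} [Fintype V] [Nonempty V] [Fintype V'] [Nonempty V']
    (G : SimpleGraph V) (H : SimpleGraph V') (r : ℕ)
    (h : thetaBar G = thetaBar H) : thetaBar (genMyc H r) ≤ thetaBar (genMyc G r) := by
  by_cases hG : ∃ v w, G.Adj v w
  · obtain ⟨v, w, hvw⟩ := hG
    have hθ := one_lt_theta_of_edge G v w hvw
    obtain ⟨Z, hZ, hmax⟩ := exists_dual_max G
    have hval : ∑ i, ∑ j, Z i j = thetaBar G := ((theta_eq G Z hZ hmax).csInf_eq).symm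
    have hH : Primal H (thetaBar G - 1) := by rw [h]; exact primal_theta H
    have key := transfer G H r (genMyc G r) (genMyc H r) (adj_of G r) (adj_apex_of G r)
      (of_adj H r) (of_adj_apex H r) (thetaBar G) hθ Z hZ hmax hval hH
      (thetaBar (genMyc G r) - 1) (primal_theta _)
    have := theta_le_of_primal _ _ key
    linarith
  · have hG' : ∀ v w, ¬ G.Adj v w := fun v w hvw => hG ⟨v, w, hvw⟩
    have h1 := theta_of_no_edge G hG'
    have hH' : ∀ v w, ¬ H.Adj v w := by
      intro v w hvw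
      have := one_lt_theta_of_edge H v w hvw
      linarith
    have h2 : thetaBar (genMyc H r) = 1 := by
      apply theta_of_no_edge
      intro a b hab
      obtain ⟨v, w, hvw⟩ := edge_of_adj H r a b hab
      exact hH' v w hvw
    rw [h2]
    exact one_le_theta _

/-- For every `r ≥ 1` (in particular for every `r ≥ 3`), the complementary theta number of the
generalized Mycielskian `M_r(G)` is determined by the complementary theta number of `G`. -/
theorem result : ∀ r : ℕ, 1 ≤ r → ∃ g : ℝ → ℝ, ∀ (V : Type) [Fintype V] [Nonempty V]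
    (G : SimpleGraph V), thetaBar (genMyc G r) = g (thetaBar G) := by
  intro r _
  have hex : ∀ x : ℝ, ∃ y : ℝ, ∀ (V : Type) [Fintype V] [Nonempty V] (G : SimpleGraph V),
      thetaBar G = x → thetaBar (genMyc G r) = y := by
    intro x
    by_cases hx : ∃ (V : Type) (_ : Fintype V) (_ : Nonempty V) (G : SimpleGraph V),
        thetaBar G = x
    · obtain ⟨V', _, _, H, hH⟩ := hx
      refine ⟨thetaBar (genMyc H r), fun V _ _ G hG => ?_⟩
      exact le_antisymm (theta_mono_transfer H G r (hH.trans hG.symm))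
        (theta_mono_transfer G H r (hG.trans hH.symm))
    · exact ⟨0, fun V _ _ G hG => absurd ⟨V, inferInstance, inferInstance, G, hG⟩ hx⟩
  choose g hg using hex
  exact ⟨g, fun V _ _ G => hg _ V G rfl⟩

end Pool.Agent.Results.MP_8a180b_co.Determined
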